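import Pool.Agent.Helper93.TS.Stmts

/-!
# Cost of the parameter `c`
-/

set_option autoImplicit false

namespace Pool.Agent.Helper93.TS

open Pool.Agent.Helper8.Kak

theorem cc_log {N : ℕ} (hN : 1 ≤ N) : Real.log ((N * N : ℕ) : ℝ) = 2 * Real.log N := by
  have h0 : (N : ℝ) ≠ 0 := by
    have : (1 : ℝ) ≤ (N : ℝ) := by exact_mod_cast hN
    linarith
  rw [Nat.cast_mul, Real.log_mul h0 h0]
  ring

theorem st_cc (h1 : ST_PRE) : ST_cc := by
  intro m N D
  have h := h1 m N D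
  have hκ := h.κ0
  show D.H _ - D.H _ ≤ 2 * Real.log N + kk m D.κ
  refine cost_le D.V _ _ VV.c (by decide +kernel) _ fun r _ => ?_
  have hN := D.hN
  have hM : 1 ≤ N * N := Nat.one_le_iff_ne_zero.2 (Nat.mul_ne_zero (by omega) (by omega))
  have h2 := Pool.Agent.Helper89.KakGeo.CE_param h.hp r D.vc hM
  have h3 : 2 * Ex D.pz (fun y => up (N * N) (D.vc y)) + Real.log 3 ≤ kk m D.κ := by
    apply le_kk hκ
    linarith [h.upc, log3_le]
  have h4 : CE D.pz (D.V VV.c) r = CE D.pz (Setoid.ker D.vc) r := rfl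
  rw [h4]
  rw [cc_log D.hN] at h2
  linarith

end Pool.Agent.Helper93.TS
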