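import Pool.Agent.Helper93.TS.Stmts

/-!
# The coarse cell of the direction of the line 0 from two coarse points
-/

set_option autoImplicit false

namespace Pool.Agent.Helper93.TS

open Pool.Agent.Helper8.Kak
open Pool.Agent.Helper89.KakGeo (cell_err CE_known one_le_inv_dst abs_inv_le inv_dst_self)

theorem st_cd0 (h1 : ST_PRE) : ST_cd0 := by
  intro m N D
  classical
  have h := h1 m N D
  have hκ := h.κ0
  show D.H _ - D.H _ ≤ kk m D.κ
  refine cost_le D.V _ _ VV.d0 (by decide +kernel) _ fun r hr => ?_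
  simp only [Finset.mem_insert, Finset.mem_singleton, forall_eq_or_imp, forall_eq, Dat.V_P0c,
    Dat.V_P1c, Dat.V_T0, Dat.V_T1] at hr
  have hN1 : (1 : ℝ) ≤ (N : ℝ) := by exact_mod_cast D.hN
  have hcd : 0 < cd N := by
    unfold cd
    positivity
  have h2 := CE_known h.hp hcd r (fun y => D.v (D.l (z0 y)))
    (fun y i => if D.T (zT y) = D.T (z0 y) then 0 else
      1 / (ht (D.T (zT y)) - ht (D.T (z0 y))) *
        (cd N * (D.Pc (D.l (z0 y)) (D.T (zT y)) i : ℤ)
          - cd N * (D.Pc (D.l (z0 y)) (D.T (z0 y)) i : ℤ)))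
    (fun y => 1 / dst (D.T (zT y)) (D.T (z0 y))) (a := 2) (k := 7) (by norm_num)
    (by norm_num) (fun y => one_le_inv_dst _ _) ?_ ?_
  · have e : CE D.pz (D.V VV.d0) r
        = CE D.pz (Setoid.ker (fun y => cell (cd N) (D.v (D.l (z0 y))))) r := rfl
    rw [e]
    refine h2.trans (mul_le_kk hκ ?_)
    have h3 := h.ld10
    unfold ld at h3
    linarith [log7_le]
  · intro y y' _ _ g
    obtain ⟨g1, g2, g3, g4⟩ := hr y y' g
    refine ⟨?_, by rw [g3, g4]⟩
    funext i
    have e1 := congrFun g1 i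
    have e2 := congrFun g2 i
    rw [e1, e2, g3, g4]
  · intro y _ i
    by_cases e : D.T (zT y) = D.T (z0 y)
    · rw [if_pos e, sub_zero, e, inv_dst_self]
      refine (D.hv _ _).trans ?_
      unfold cd
      push_cast
      have e3 : 2 * ((N : ℝ) * N) * (1 / N) = 2 * N := by
        field_simp
      rw [e3]
      linarith
    · rw [if_neg e]
      have hne : ht (D.T (zT y)) - ht (D.T (z0 y)) ≠ 0 := sub_ne_zero.2 (ht_ne_of_ne e)
      set g := 1 / (ht (D.T (zT y)) - ht (D.T (z0 y))) with hg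
      have hg1 : |g| ≤ 1 / dst (D.T (zT y)) (D.T (z0 y)) := abs_inv_le _ _
      have c1 := cell_err hcd (pnt D.x D.v (D.l (z0 y)) (D.T (zT y))) i
      have c2 := cell_err hcd (pnt D.x D.v (D.l (z0 y)) (D.T (z0 y))) i
      have e4 : D.v (D.l (z0 y)) i = g * (pnt D.x D.v (D.l (z0 y)) (D.T (zT y)) i
          - pnt D.x D.v (D.l (z0 y)) (D.T (z0 y)) i) := by
        rw [hg]
        unfold pnt
        field_simp
        ring
      have e5 : D.v (D.l (z0 y)) i - g * (cd N * (D.Pc (D.l (z0 y)) (D.T (zT y)) i : ℤ)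
            - cd N * (D.Pc (D.l (z0 y)) (D.T (z0 y)) i : ℤ))
          = g * ((pnt D.x D.v (D.l (z0 y)) (D.T (zT y)) i
              - cd N * (D.Pc (D.l (z0 y)) (D.T (zT y)) i : ℤ))
            - (pnt D.x D.v (D.l (z0 y)) (D.T (z0 y)) i
              - cd N * (D.Pc (D.l (z0 y)) (D.T (z0 y)) i : ℤ))) := by
        nth_rewrite 1 [e4]
        ring
      rw [e5, abs_mul]
      have c3 := abs_sub (pnt D.x D.v (D.l (z0 y)) (D.T (zT y)) i
          - cd N * (D.Pc (D.l (z0 y)) (D.T (zT y)) i : ℤ))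
        (pnt D.x D.v (D.l (z0 y)) (D.T (z0 y)) i
          - cd N * (D.Pc (D.l (z0 y)) (D.T (z0 y)) i : ℤ))
      have c4 := c3.trans (add_le_add c1 c2)
      refine (mul_le_mul hg1 c4 (abs_nonneg _)
        (by linarith [one_le_inv_dst (D.T (zT y)) (D.T (z0 y))])).trans (le_of_eq ?_)
      ring

end Pool.Agent.Helper93.TS
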