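import Pool.Agent.Helper93.TS.Stmts

/-!
# The coarse cell of the direction of the line 1 from `W` and `c`
-/

set_option autoImplicit false

namespace Pool.Agent.Helper93.TS

open Pool.Agent.Helper8.Kak

theorem cd1_err {N : ℕ} (hN : 1 ≤ N) (c : ℤ) :
    fd N + |tau N c| ≤ 1 * (1 + ((N * N : ℕ) : ℝ) / max |(c : ℝ)| 1) * cd N := by
  have hN1 : (1 : ℝ) ≤ (N : ℝ) := by exact_mod_cast hN
  have hN0 : (0 : ℝ) < (N : ℝ) := by linarith
  have e1 : fd N ≤ cd N := by
    unfold fd cd
    push_cast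
    refine one_div_le_one_div_of_le hN0 ?_
    nlinarith
  have e2 : |tau N c| ≤ ((N * N : ℕ) : ℝ) / max |(c : ℝ)| 1 * cd N := by
    have e3 : ((N * N : ℕ) : ℝ) / max |(c : ℝ)| 1 * cd N = (N : ℝ) / max |(c : ℝ)| 1 := by
      unfold cd
      push_cast
      field_simp
    rw [e3]
    by_cases hc : c = 0
    · unfold tau
      rw [hc, Int.cast_zero, div_zero, abs_zero]
      positivity
    · have hc1 : 1 ≤ |(c : ℝ)| := by
        have := Int.one_le_abs hc
        exact_mod_cast this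
      rw [max_eq_left hc1]
      unfold tau
      rw [abs_div, abs_of_pos hN0]
  nlinarith

theorem st_cd1 (h1 : ST_PRE) : ST_cd1 := by
  intro m N D
  have h := h1 m N D
  have hκ := h.κ0
  show D.H _ - D.H _ ≤ kk m D.κ
  refine cost_le D.V _ _ VV.d1 (by decide +kernel) _ fun r hr => ?_
  simp only [Finset.mem_insert, Finset.mem_singleton, forall_eq_or_imp, forall_eq, Dat.V_W,
    Dat.V_c] at hr
  have hN1 : (1 : ℝ) ≤ (N : ℝ) := by exact_mod_cast D.hN
  have hcd : 0 < cd N := by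
    unfold cd
    positivity
  have hfd : 0 < fd N := by
    unfold fd
    have : (0 : ℝ) < ((N * N : ℕ) : ℝ) := by
      push_cast
      nlinarith
    positivity
  have h2 := Pool.Agent.Helper89.KakGeo.CE_known h.hp hcd r (fun y => D.v (D.l (z1 y)))
    (fun y i => fd N * (D.vW y i : ℤ))
    (fun y => 1 + ((N * N : ℕ) : ℝ) / max |(D.vc y : ℝ)| 1) (a := 1) (k := 7) (by norm_num)
    (by norm_num) ?_ ?_ ?_
  · have e : CE D.pz (D.V VV.d1) r
        = CE D.pz (Setoid.ker (fun y => cell (cd N) (D.v (D.l (z1 y))))) r := rfl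
    rw [e]
    refine h2.trans (mul_le_kk hκ ?_)
    have h3 := h.dnc
    unfold dn at h3
    linarith [log7_le]
  · intro y
    have : 0 ≤ ((N * N : ℕ) : ℝ) / max |(D.vc y : ℝ)| 1 := by positivity
    linarith
  · intro y y' _ _ g
    obtain ⟨g1, g2⟩ := hr y y' g
    exact ⟨by rw [g1], by rw [g2]⟩
  · intro y _ i
    have e1 := Pool.Agent.Helper89.KakGeo.cell_err hfd
      (fun i => D.v (D.l (z1 y)) i - tau N (D.vc y) * D.v (D.l (z0 y)) i) i
    have e2 : |tau N (D.vc y) * D.v (D.l (z0 y)) i| ≤ |tau N (D.vc y)| := by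
      rw [abs_mul]
      exact mul_le_of_le_one_right (abs_nonneg _) (D.hv _ _)
    refine le_trans ?_ (cd1_err D.hN (D.vc y))
    have e3 : D.v (D.l (z1 y)) i - fd N * (D.vW y i : ℤ)
        = (D.v (D.l (z1 y)) i - tau N (D.vc y) * D.v (D.l (z0 y)) i - fd N * (D.vW y i : ℤ))
          + tau N (D.vc y) * D.v (D.l (z0 y)) i := by ring
    rw [e3]
    refine (abs_add_le _ _).trans ?_
    exact add_le_add e1 e2

end Pool.Agent.Helper93.TS
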